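import Pool.Agent.H42.BN.Fit

/-!
# Bounds for normal cores and for the quotients by the largest normal subgroups of order prime to `p`

`Γ` finite solvable. `core_solv`: the index of the normal core of a subgroup of index `m` is at most
`m ^ (h ^ 2 + h)` if no `q ^ (h + 1)` divides the order of `Γ`. `opp_solv`: the index of the largest normal
subgroup of order prime to `p` is at most `p ^ (h ^ 2 + h)`.
-/

set_option autoImplicit false

namespace Pool.Agent.H42.BN

variable {G : Type} [Group G] [Finite G]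

/-- a normal `q`-subgroup is contained in every subgroup of index prime to `q` -/
theorem le_of_index {q : ℕ} [Fact q.Prime] {N H : Subgroup G} (hN : N.Normal) (hNq : IsPGroup q N)
    (hH : ¬ q ∣ H.index) : N ≤ H := by
  have h1 : ¬ q ∣ Nat.card (G ⧸ H) := hH
  obtain ⟨x, hx⟩ := hNq.nonempty_fixed_point_of_prime_not_dvd_card (G ⧸ H) h1
  induction x using QuotientGroup.induction_on with
  | _ g =>
    intro y hy
    have h2 := hx (⟨g * y * g⁻¹, hN.conj_mem y hy g⟩ : N)
    have h3 : ((g * y * g⁻¹ * g : G) : G ⧸ H) = (g : G ⧸ H) := h2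
    rw [inv_mul_cancel_right, QuotientGroup.eq] at h3
    have h4 : (g * y)⁻¹ * g = y⁻¹ := by group
    rw [h4] at h3
    exact inv_mem_iff.1 h3

/-- a group with a subgroup without normal subgroups -/
theorem card_core [Group.IsSolvable G] {H : Subgroup G} (hH : H.normalCore = ⊥) (h : ℕ)
    (hh : ∀ q : ℕ, q.Prime → ¬ q ^ (h + 1) ∣ Nat.card G) :
    Nat.card G ≤ H.index ^ (h ^ 2 + h) := by
  have hi : H.index ≠ 0 := Subgroup.index_ne_zero_of_finite
  refine (fit_card H.index.primeFactors (fun q hq => Nat.prime_of_mem_primeFactors hq) h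
    (fun q hq => hh q (Nat.prime_of_mem_primeFactors hq)) ?_).trans
    (Nat.pow_le_pow_left (Nat.le_of_dvd (Nat.pos_of_ne_zero hi) (Nat.prod_primeFactors_dvd _)) _)
  intro q hq hqS N hN hNq
  have : Fact q.Prime := ⟨hq⟩
  have h1 : ¬ q ∣ H.index := fun h2 => hqS (Nat.mem_primeFactors.2 ⟨hq, h2, hi⟩)
  have h2 := le_of_index hN hNq h1
  rw [← Subgroup.normal_le_normalCore, hH] at h2
  exact le_bot_iff.1 h2

theorem core_solv [Group.IsSolvable G] (St : Subgroup G) (h : ℕ)
    (hh : ∀ q : ℕ, q.Prime → ¬ q ^ (h + 1) ∣ Nat.card G) :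
    St.normalCore.index ≤ St.index ^ (h ^ 2 + h) := by
  obtain ⟨M, hM⟩ : ∃ M : Subgroup G, M = St.normalCore := ⟨_, rfl⟩
  have hMn : M.Normal := by
    rw [hM]
    infer_instance
  have hMle : M ≤ St := by
    rw [hM]
    exact Subgroup.normalCore_le _
  have hk : (QuotientGroup.mk' M).ker = M := QuotientGroup.ker_mk' M
  have hr : (QuotientGroup.mk' M).range = ⊤ :=
    MonoidHom.range_eq_top.2 (QuotientGroup.mk'_surjective M)
  have h1 : (St.map (QuotientGroup.mk' M)).index = St.index := by
    rw [Subgroup.index_map, hk, hr, Subgroup.index_top, mul_one, sup_eq_left.2 hMle]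
  have h2 : (St.map (QuotientGroup.mk' M)).normalCore = ⊥ := by
    obtain ⟨X, hX⟩ : ∃ X : Subgroup (G ⧸ M), X = (St.map (QuotientGroup.mk' M)).normalCore := ⟨_, rfl⟩
    have hXn : X.Normal := by
      rw [hX]
      infer_instance
    have hXle : X ≤ St.map (QuotientGroup.mk' M) := by
      rw [hX]
      exact Subgroup.normalCore_le _
    have h3 : X.comap (QuotientGroup.mk' M) ≤ St := by
      refine (Subgroup.comap_mono hXle).trans ?_
      rw [Subgroup.comap_map_eq, hk, sup_eq_left.2 hMle]
    have h4 : X.comap (QuotientGroup.mk' M) ≤ M :=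
      (Subgroup.normal_le_normalCore.2 h3).trans hM.ge
    rw [← hX, eq_bot_iff]
    intro x hx
    obtain ⟨g, rfl⟩ := QuotientGroup.mk'_surjective M x
    have h5 : g ∈ M := h4 hx
    rw [Subgroup.mem_bot]
    exact (QuotientGroup.eq_one_iff g).2 h5
  have h3 : ∀ q : ℕ, q.Prime → ¬ q ^ (h + 1) ∣ Nat.card (G ⧸ M) := fun q hq hd =>
    hh q hq (hd.trans (Subgroup.card_quotient_dvd_card M))
  have hs : Group.IsSolvable (G ⧸ M) := inferInstance
  have h4 := card_core h2 h h3
  rw [h1] at h4
  rw [← hM]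
  exact h4

/-- the quotient by the largest normal subgroup of order prime to `p` -/
theorem opp_solv [Group.IsSolvable G] {p : ℕ} (hp : p.Prime) {M : Subgroup G} (hMn : M.Normal)
    (hMp : ¬ p ∣ Nat.card M)
    (hM : ∀ N : Subgroup G, N.Normal → ¬ p ∣ Nat.card N → N ≤ M) (h : ℕ)
    (hh : ¬ p ^ (h + 1) ∣ Nat.card G) : M.index ≤ p ^ (h ^ 2 + h) := by
  have : Fact p.Prime := ⟨hp⟩
  have hs : Group.IsSolvable (G ⧸ M) := inferInstance
  have h1 : Nat.card (G ⧸ M) ≤ (∏ q ∈ {p}, q) ^ (h ^ 2 + h) := by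
    refine fit_card {p} (by simpa using hp) h ?_ ?_
    · intro q hq hd
      rw [Finset.mem_singleton] at hq
      subst hq
      exact hh (hd.trans (Subgroup.card_quotient_dvd_card M))
    · intro q hq hqp N hN hNq
      have hqp' : q ≠ p := fun h2 => hqp (Finset.mem_singleton.2 h2)
      have : Fact q.Prime := ⟨hq⟩
      have h2 : ¬ p ∣ Nat.card (N.comap (QuotientGroup.mk' M)) := by
        intro hd
        obtain ⟨⟨x, hx⟩, hxo⟩ := exists_prime_orderOf_dvd_card' p hd
        rw [Subgroup.orderOf_mk] at hxo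
        have hx1 : (⟨QuotientGroup.mk' M x, hx⟩ : N) ^ p = 1 := by
          refine Subtype.ext ?_
          change (QuotientGroup.mk' M x) ^ p = 1
          rw [← map_pow, ← hxo, pow_orderOf_eq_one, map_one]
        obtain ⟨k, hk⟩ := hNq ⟨QuotientGroup.mk' M x, hx⟩
        have h3 : (⟨QuotientGroup.mk' M x, hx⟩ : N) = 1 := by
          have h4 := orderOf_dvd_of_pow_eq_one hx1
          have h5 := orderOf_dvd_of_pow_eq_one hk
          have h6 : Nat.Coprime p (q ^ k) :=
            Nat.Coprime.pow_right k ((Nat.coprime_primes hp hq).2 hqp'.symm)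
          exact orderOf_eq_one_iff.1 (Nat.eq_one_of_dvd_coprimes h6 h4 h5)
        have h4 : x ∈ M := by
          rw [← QuotientGroup.eq_one_iff]
          exact congrArg Subtype.val h3
        refine hMp ?_
        have h5 : orderOf (⟨x, h4⟩ : M) = p := by
          rw [Subgroup.orderOf_mk, hxo]
        rw [← h5]
        exact orderOf_dvd_natCard _
      have h3 := hM _ (hN.comap _) h2
      rw [eq_bot_iff]
      intro x hx
      obtain ⟨g, rfl⟩ := QuotientGroup.mk'_surjective M x
      have h5 : g ∈ M := h3 hx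
      rw [Subgroup.mem_bot]
      exact (QuotientGroup.eq_one_iff g).2 h5
  rw [Finset.prod_singleton] at h1
  exact h1

end Pool.Agent.H42.BN
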