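import Mathlib

/-!
# Bounds for the orders of solvable groups

`fit_card`: `G` a finite solvable group without nontrivial normal `q`-subgroups for the primes `q` outside the
finite set `S`, and `q ^ (h + 1)` does not divide the order of `G` for `q ∈ S`: the order of `G` is at most
`(∏ q ∈ S, q) ^ (h ^ 2 + h)`. Proof: the subgroup `C` of the elements which commute with all normal
subgroups of prime power order is abelian (`cent_le`), and `G / C` acts faithfully on these subgroups.
-/

set_option autoImplicit false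

namespace Pool.Agent.H42.BN

variable {G : Type} [Group G] [Finite G]

/-- normal nilpotent subgroups are generated by normal subgroups of prime power order -/
theorem nil_le {F : Subgroup G}
    (hF : ∀ q : ℕ, q.Prime → ∀ N : Subgroup G, N.Normal → IsPGroup q N → N ≤ F)
    {N : Subgroup G} (hN : N.Normal) (hn : Group.IsNilpotent N) : N ≤ F := by
  have key : (F.subgroupOf N).index = 1 := by
    by_contra h
    obtain ⟨q, hq, hqd⟩ := Nat.exists_prime_and_dvd h
    have : Fact q.Prime := ⟨hq⟩
    obtain ⟨Q⟩ : Nonempty (Sylow q N) := inferInstance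
    have hQn : (Q : Subgroup N).Normal := inferInstance
    have hQc := Q.characteristic_of_normal hQn
    have h1 : ((Q : Subgroup N).map N.subtype).Normal := ConjAct.normal_of_characteristic_of_normal
    have h2 : IsPGroup q ((Q : Subgroup N).map N.subtype) := Q.2.map _
    have h3 := hF q hq _ h1 h2
    have h4 : (Q : Subgroup N) ≤ F.subgroupOf N := by
      rwa [Subgroup.map_le_iff_le_comap] at h3
    exact Q.not_dvd_index (hqd.trans (Subgroup.index_dvd_of_le h4))
  rw [Subgroup.index_eq_one, Subgroup.subgroupOf_eq_top] at key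
  exact key

/-- a normal subgroup which commutes with all normal subgroups of prime power order -/
theorem cent_le [Group.IsSolvable G] {F : Subgroup G}
    (hF : ∀ q : ℕ, q.Prime → ∀ N : Subgroup G, N.Normal → IsPGroup q N → N ≤ F)
    {C : Subgroup G} (hC : C.Normal) (hcf : ∀ c ∈ C, ∀ x ∈ F, c * x = x * c) : C ≤ F := by
  by_contra hCF
  obtain ⟨K, ⟨hKn, hKC, hKF⟩, hmin⟩ := WellFounded.has_min (wellFounded_lt (α := Subgroup G))
    {K : Subgroup G | K.Normal ∧ K ≤ C ∧ ¬ K ≤ F} ⟨C, hC, le_rfl, hCF⟩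
  have hK'n : (⁅K, K⁆ : Subgroup G).Normal := Subgroup.commutator_normal K K
  have hK'K : (⁅K, K⁆ : Subgroup G) ≤ K := Subgroup.commutator_le_left K K
  by_cases h : (⁅K, K⁆ : Subgroup G) ≤ F
  · refine hKF (nil_le hF hKn ?_)
    rw [Subgroup.isNilpotent_iff_lowerCentralSeries]
    refine ⟨2, ?_⟩
    rw [Subgroup.lowerCentralSeries_succ, Subgroup.lowerCentralSeries_succ,
      Subgroup.lowerCentralSeries_zero, Subgroup.commutator_eq_bot_iff_le_centralizer]
    intro x hx
    rw [Subgroup.mem_centralizer_iff]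
    intro y hy
    exact hcf y (hKC hy) x (h hx)
  · have hb : K ≠ ⊥ := by
      rintro rfl
      exact hKF bot_le
    exact hmin _ ⟨hK'n, hK'K.trans hKC, h⟩ (Group.IsSolvable.commutator_lt_of_ne_bot hb)

/-- a group of order `q ^ k` is generated by `k` elements -/
theorem gen_pow {q k : ℕ} (hq : q.Prime) {H : Type} [Group H] [Finite H] (hH : Nat.card H = q ^ k) :
    ∃ s : Fin k → H, Subgroup.closure (Set.range s) = ⊤ := by
  have key : ∀ j, ∃ s : Fin j → H, q ^ j ∣ Nat.card (Subgroup.closure (Set.range s)) ∨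
      Subgroup.closure (Set.range s) = ⊤ := by
    intro j
    induction j with
    | zero => exact ⟨Fin.elim0, Or.inl (by rw [pow_zero]; exact one_dvd _)⟩
    | succ j ih =>
      obtain ⟨s, hs⟩ := ih
      by_cases ht : Subgroup.closure (Set.range s) = ⊤
      · refine ⟨Fin.cons 1 s, Or.inr ?_⟩
        rw [eq_top_iff, ← ht]
        refine Subgroup.closure_mono ?_
        rintro _ ⟨i, rfl⟩
        exact ⟨i.succ, Fin.cons_succ _ _ _⟩
      · obtain ⟨x, -, hx⟩ := SetLike.exists_of_lt (lt_top_iff_ne_top.2 ht)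
        refine ⟨Fin.cons x s, Or.inl ?_⟩
        have hle : Subgroup.closure (Set.range s) ≤
            Subgroup.closure (Set.range (Fin.cons x s : Fin (j + 1) → H)) := by
          refine Subgroup.closure_mono ?_
          rintro _ ⟨i, rfl⟩
          exact ⟨i.succ, Fin.cons_succ _ _ _⟩
        have hxm : x ∈ Subgroup.closure (Set.range (Fin.cons x s : Fin (j + 1) → H)) :=
          Subgroup.subset_closure ⟨0, Fin.cons_zero _ _⟩
        have h1 : q ^ j ∣ Nat.card (Subgroup.closure (Set.range s)) := hs.resolve_right ht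
        obtain ⟨a, -, ha⟩ := (Nat.dvd_prime_pow hq).1
          (hH ▸ Subgroup.card_subgroup_dvd_card (Subgroup.closure (Set.range s)))
        obtain ⟨b, -, hb⟩ := (Nat.dvd_prime_pow hq).1
          (hH ▸ Subgroup.card_subgroup_dvd_card
            (Subgroup.closure (Set.range (Fin.cons x s : Fin (j + 1) → H))))
        rw [ha] at h1
        rw [hb]
        have h2 : j ≤ a := (Nat.pow_dvd_pow_iff_le_right hq.one_lt).1 h1
        have h3 : a < b := by
          have h4 : a ≤ b := by
            rw [← Nat.pow_dvd_pow_iff_le_right hq.one_lt, ← ha, ← hb]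
            exact Subgroup.card_dvd_of_le hle
          refine lt_of_le_of_ne h4 fun hab => hx ?_
          have h5 := Subgroup.eq_of_le_of_card_ge hle (by rw [ha, hb, hab])
          rw [h5]
          exact hxm
        exact pow_dvd_pow q (by omega)
  obtain ⟨s, hs⟩ := key k
  refine ⟨s, hs.elim (fun h => ?_) id⟩
  refine Subgroup.eq_top_of_card_eq _ (le_antisymm (Subgroup.card_le_card_group _) ?_)
  rw [hH]
  exact Nat.le_of_dvd Nat.card_pos h

/-- automorphisms of a group of order `q ^ k` -/
theorem aut_card {q k : ℕ} (hq : q.Prime) {H : Type} [Group H] [Finite H] (hH : Nat.card H = q ^ k) :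
    Nat.card (MulAut H) ≤ q ^ (k * k) := by
  obtain ⟨s, hs⟩ := gen_pow hq hH
  have h1 : Nat.card (MulAut H) ≤ Nat.card (Fin k → H) := by
    refine Nat.card_le_card_of_injective (fun (f : MulAut H) i => f (s i)) fun f g h => ?_
    have h2 : (f : H →* H) = (g : H →* H) := by
      refine MonoidHom.eq_of_eqOn_dense hs ?_
      rintro _ ⟨i, rfl⟩
      exact congrFun h i
    exact MulEquiv.ext fun x => DFunLike.congr_fun h2 x
  refine h1.trans (le_of_eq ?_)
  rw [Nat.card_fun, hH, Nat.card_eq_fintype_card (α := Fin k), Fintype.card_fin, ← pow_mul]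

omit [Finite G] in
/-- the largest normal `q`-subgroup -/
theorem core_ex (q : ℕ) [Fact q.Prime] : ∃ N : Subgroup G, N.Normal ∧ IsPGroup q N ∧
    ∀ M : Subgroup G, M.Normal → IsPGroup q M → M ≤ N := by
  obtain ⟨P⟩ : Nonempty (Sylow q G) := inferInstance
  refine ⟨(P : Subgroup G).normalCore, inferInstance, P.2.to_le (Subgroup.normalCore_le _), ?_⟩
  intro M hM hMp
  rw [Subgroup.normal_le_normalCore]
  have h1 : IsPGroup q (M ⊔ (P : Subgroup G) : Subgroup G) := hMp.to_sup_of_normal_left P.2
  have h2 := P.3 h1 le_sup_right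
  rw [← h2]
  exact le_sup_left

theorem fit_card [Group.IsSolvable G] (S : Finset ℕ) (hS : ∀ q ∈ S, q.Prime) (h : ℕ)
    (hh : ∀ q ∈ S, ¬ q ^ (h + 1) ∣ Nat.card G)
    (hN : ∀ q : ℕ, q.Prime → q ∉ S → ∀ N : Subgroup G, N.Normal → IsPGroup q N → N = ⊥) :
    Nat.card G ≤ (∏ q ∈ S, q) ^ (h ^ 2 + h) := by
  have hex : ∀ q : S, ∃ N : Subgroup G, N.Normal ∧ IsPGroup q.1 N ∧
      ∀ M : Subgroup G, M.Normal → IsPGroup q.1 M → M ≤ N := by
    rintro ⟨q, hq⟩
    have : Fact q.Prime := ⟨hS q hq⟩
    exact core_ex q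
  choose P hPn hPp hPm using hex
  obtain ⟨F, hFdef⟩ : ∃ F : Subgroup G, F = ⨆ q : S, P q := ⟨_, rfl⟩
  have hF : ∀ q : ℕ, q.Prime → ∀ N : Subgroup G, N.Normal → IsPGroup q N → N ≤ F := by
    intro q hq N hNn hNp
    by_cases hqS : q ∈ S
    · rw [hFdef]
      exact (hPm ⟨q, hqS⟩ N hNn hNp).trans (le_iSup P ⟨q, hqS⟩)
    · rw [hN q hq hqS N hNn hNp]
      exact bot_le
  let φ : G →* ∀ q : S, MulAut (P q) := MonoidHom.pi fun q => MulAut.conjNormal
  have hker : ∀ c ∈ φ.ker, ∀ x ∈ F, c * x = x * c := by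
    intro c hc x hx
    have h1 : F ≤ Subgroup.centralizer {c} := by
      rw [hFdef, iSup_le_iff]
      intro q y hy
      rw [Subgroup.mem_centralizer_singleton_iff]
      have h2 : φ c q = 1 := by
        rw [MonoidHom.mem_ker] at hc
        rw [hc]
        rfl
      have h3 : ((MulAut.conjNormal c : MulAut (P q)) ⟨y, hy⟩ : G) = y := by
        have h4 : (MulAut.conjNormal c : MulAut (P q)) = 1 := h2
        rw [h4]
        rfl
      rw [MulAut.conjNormal_apply] at h3
      rw [mul_inv_eq_iff_eq_mul] at h3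
      exact h3.symm
    have h2 := h1 hx
    rw [Subgroup.mem_centralizer_singleton_iff] at h2
    exact h2.symm
  have hCF : φ.ker ≤ F := cent_le hF inferInstance hker
  have hCn : Group.IsNilpotent φ.ker := by
    rw [Subgroup.isNilpotent_iff_lowerCentralSeries]
    refine ⟨1, ?_⟩
    rw [Subgroup.lowerCentralSeries_succ, Subgroup.lowerCentralSeries_zero,
      Subgroup.commutator_eq_bot_iff_le_centralizer]
    intro x hx
    rw [Subgroup.mem_centralizer_iff]
    intro y hy
    exact hker y hy x (hCF hx)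
  have hcardC : Nat.card φ.ker ∣ (∏ q ∈ S, q) ^ h := by
    have hP0 : (∏ q ∈ S, q) ≠ 0 := Finset.prod_ne_zero_iff.2 fun q hq => (hS q hq).ne_zero
    rw [← Nat.factorization_prime_le_iff_dvd Nat.card_pos.ne' (pow_ne_zero _ hP0)]
    intro q hq
    by_cases h0 : (Nat.card φ.ker).factorization q = 0
    · rw [h0]
      exact Nat.zero_le _
    have hqd : q ∣ Nat.card φ.ker := Nat.dvd_of_factorization_pos h0
    have : Fact q.Prime := ⟨hq⟩
    have hqS : q ∈ S := by
      by_contra hqS
      obtain ⟨Q⟩ : Nonempty (Sylow q φ.ker) := inferInstance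
      have hQn : (Q : Subgroup φ.ker).Normal := inferInstance
      have hQc := Q.characteristic_of_normal hQn
      have h1 : ((Q : Subgroup φ.ker).map φ.ker.subtype).Normal :=
        ConjAct.normal_of_characteristic_of_normal
      have h2 := hN q hq hqS _ h1 (Q.2.map _)
      rw [Subgroup.map_eq_bot_iff_of_injective _ φ.ker.subtype_injective] at h2
      have h3 := Q.not_dvd_index
      rw [h2, Subgroup.index_bot] at h3
      exact h3 hqd
    rw [Nat.factorization_pow, Finsupp.smul_apply, smul_eq_mul]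
    have h1 : (Nat.card φ.ker).factorization q ≤ h := by
      by_contra h2
      refine hh q hqS (dvd_trans ?_ (Subgroup.card_subgroup_dvd_card φ.ker))
      exact (pow_dvd_pow q (by omega)).trans (Nat.ordProj_dvd _ q)
    have h2 : 1 ≤ (∏ q ∈ S, q).factorization q :=
      hq.factorization_pos_of_dvd hP0 (Finset.dvd_prod_of_mem _ hqS)
    exact h1.trans (Nat.le_mul_of_pos_right _ h2)
  have hcardR : Nat.card φ.range ≤ (∏ q ∈ S, q) ^ (h ^ 2) := by
    refine (Subgroup.card_le_card_group _).trans ?_
    rw [Nat.card_pi]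
    have h1 : ∀ q : S, Nat.card (MulAut (P q)) ≤ q.1 ^ (h ^ 2) := by
      rintro ⟨q, hq⟩
      have : Fact q.Prime := ⟨hS q hq⟩
      obtain ⟨k, hk⟩ := (IsPGroup.iff_card).1 (hPp ⟨q, hq⟩)
      have hkh : k ≤ h := by
        by_contra h2
        refine hh q hq (dvd_trans ?_ (Subgroup.card_subgroup_dvd_card (P ⟨q, hq⟩)))
        rw [hk]
        exact pow_dvd_pow q (by omega)
      refine (aut_card (hS q hq) hk).trans (Nat.pow_le_pow_right (hS q hq).pos ?_)
      rw [pow_two]
      exact Nat.mul_le_mul hkh hkh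
    refine (Finset.prod_le_prod' fun q _ => h1 q).trans (le_of_eq ?_)
    rw [Finset.prod_pow, Finset.prod_coe_sort S fun q => q]
  have hcard : Nat.card G = Nat.card φ.ker * Nat.card φ.range := by
    rw [← Subgroup.index_ker, Subgroup.card_mul_index]
  have hP1 : 1 ≤ (∏ q ∈ S, q) ^ h :=
    Nat.one_le_pow _ _ (Finset.prod_pos fun q hq => (hS q hq).pos)
  rw [hcard, add_comm, pow_add]
  exact Nat.mul_le_mul (Nat.le_of_dvd hP1 hcardC) hcardR

end Pool.Agent.H42.BN
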